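import Pool.Agent.Lib.MP_d9b062_al.AlgDefs

/-!
# Products and brackets in the Zariski closure of `exp 𝔤`
-/

namespace Pool.Agent.Lib.MP_d9b062_al.Stmt

open NormedSpace Matrix

namespace BrkAux

section Banach

variable {E : Type*} [NormedRing E] [NormedAlgebra ℝ E] [CompleteSpace E]

/-- left multiplication -/
noncomputable def lm (E : Type*) [NormedRing E] [NormedAlgebra ℝ E] : E →+* (E →L[ℝ] E) where
  toFun := fun a => ContinuousLinearMap.mul ℝ E a
  map_one' := by ext x; simp
  map_mul' := fun a b => by ext x; simp [mul_assoc]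
  map_zero' := by simp
  map_add' := fun a b => by simp

/-- right multiplication -/
noncomputable def rm (E : Type*) [NormedRing E] [NormedAlgebra ℝ E] : Eᵐᵒᵖ →+* (E →L[ℝ] E) where
  toFun := fun a => (ContinuousLinearMap.mul ℝ E).flip a.unop
  map_one' := by ext x; simp
  map_mul' := fun a b => by ext x; simp [mul_assoc]
  map_zero' := by simp
  map_add' := fun a b => by simp

theorem exp_conj_mem {V : Submodule ℝ E} (hV : IsClosed (V : Set E)) {X : E}
    (hX : ∀ Y ∈ V, X * Y - Y * X ∈ V) {Y : E} (hY : Y ∈ V) : exp X * Y * exp (-X) ∈ V := by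
  let _ : NormedAlgebra ℚ E := NormedAlgebra.restrictScalars ℚ ℝ E
  let _ : NormedAlgebra ℚ (E →L[ℝ] E) := NormedAlgebra.restrictScalars ℚ ℝ (E →L[ℝ] E)
  have h1 : lm E (exp X) = exp (lm E X) :=
    map_exp (lm E) (ContinuousLinearMap.mul ℝ E).continuous X
  have h2 : rm E (MulOpposite.op (exp (-X))) = exp (rm E (MulOpposite.op (-X))) := by
    rw [← exp_op]
    exact map_exp (rm E)
      ((ContinuousLinearMap.mul ℝ E).flip.continuous.comp MulOpposite.continuous_unop) _
  have hc : Commute (lm E X) (rm E (MulOpposite.op (-X))) := by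
    ext x; simp [lm, rm, mul_assoc]
  have h3 : exp (lm E X + rm E (MulOpposite.op (-X)))
      = lm E (exp X) * rm E (MulOpposite.op (exp (-X))) := by
    rw [h1, h2]; exact exp_add_of_commute hc
  have h4 : exp X * Y * exp (-X) = exp (lm E X + rm E (MulOpposite.op (-X))) Y := by
    rw [h3]; simp [lm, rm, mul_assoc]
  rw [h4]
  set D := lm E X + rm E (MulOpposite.op (-X)) with hD
  have hDV : ∀ Z ∈ V, D Z ∈ V := by
    intro Z hZ
    have : D Z = X * Z - Z * X := by simp [hD, lm, rm, sub_eq_add_neg]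
    rw [this]; exact hX Z hZ
  have hpow : ∀ n : ℕ, (D ^ n) Y ∈ V := by
    intro n
    induction n with
    | zero => simpa using hY
    | succ n ih => rw [pow_succ']; exact hDV _ ih
  have hs : HasSum (fun n : ℕ => (n.factorial⁻¹ : ℝ) • D ^ n) (exp D) :=
    exp_series_hasSum_exp' (𝕂 := ℝ) D
  have hcont : Continuous fun A : E →L[ℝ] E => A Y := (ContinuousLinearMap.apply ℝ E Y).continuous
  have hcl : IsClosed {A : E →L[ℝ] E | A Y ∈ (V : Set E)} := hV.preimage hcont
  have hmem : ∀ n : ℕ, (∑ i ∈ Finset.range n, (i.factorial⁻¹ : ℝ) • D ^ i) ∈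
      {A : E →L[ℝ] E | A Y ∈ (V : Set E)} := by
    intro n
    have h5 : (∑ i ∈ Finset.range n, (i.factorial⁻¹ : ℝ) • D ^ i) Y
        = ∑ i ∈ Finset.range n, (i.factorial⁻¹ : ℝ) • ((D ^ i) Y) := by
      rw [_root_.sum_apply]
      refine Finset.sum_congr rfl fun i _ => ?_
      rw [_root_.smul_apply]
    show (∑ i ∈ Finset.range n, (i.factorial⁻¹ : ℝ) • D ^ i) Y ∈ V
    rw [h5]
    exact V.sum_mem fun i _ => V.smul_mem _ (hpow i)
  exact hcl.mem_of_tendsto hs.tendsto_sum_nat (Filter.Eventually.of_forall hmem)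

theorem bracket_of_conj {V : Submodule ℝ E} (hV : IsClosed (V : Set E)) {X Y : E}
    (h : ∀ t : ℝ, exp (t • X) * Y * exp (t • (-X)) ∈ V) : X * Y - Y * X ∈ V := by
  have h1 : HasDerivAt (fun t : ℝ => exp (t • X)) X 0 := by
    have := hasDerivAt_exp_smul_const (𝕂 := ℝ) X 0
    simpa using this
  have h2 : HasDerivAt (fun t : ℝ => exp (t • (-X))) (-X) 0 := by
    have := hasDerivAt_exp_smul_const (𝕂 := ℝ) (-X) 0
    simpa using this
  have h3 : HasDerivAt (fun t : ℝ => exp (t • X) * Y * exp (t • (-X))) (X * Y - Y * X) 0 := by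
    have h5 := (h1.mul_const Y).mul h2
    have h6 : X * Y * exp ((0 : ℝ) • -X) + exp ((0 : ℝ) • X) * Y * -X = X * Y - Y * X := by
      simp [sub_eq_add_neg]
    rw [h6] at h5
    exact h5
  have h4 := h3.tendsto_slope
  refine hV.mem_of_tendsto h4 ?_
  refine Filter.Eventually.of_forall fun t => ?_
  simp only [slope, vsub_eq_sub]
  exact V.smul_mem _ (V.sub_mem (h t) (h 0))

end Banach

end BrkAux

attribute [local instance 100] LieRing.ofAssociativeRing

namespace BrkAux

variable {N : ℕ}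

/-- evaluation of polynomials at a matrix, as a ring homomorphism -/
noncomputable def ev (T : Matrix (Fin N) (Fin N) ℝ) : MvPolynomial (Fin N × Fin N) ℝ →+* ℝ :=
  MvPolynomial.eval (fun ij => T ij.1 ij.2)

/-- generic matrix -/
noncomputable def gen (N : ℕ) : Matrix (Fin N) (Fin N) (MvPolynomial (Fin N × Fin N) ℝ) :=
  Matrix.of fun i j => MvPolynomial.X (i, j)

theorem gen_map (T : Matrix (Fin N) (Fin N) ℝ) : (gen N).map (ev T) = T := by
  ext i j; simp [gen, ev]

/-- constant matrix -/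
noncomputable def cst (A : Matrix (Fin N) (Fin N) ℝ) :
    Matrix (Fin N) (Fin N) (MvPolynomial (Fin N × Fin N) ℝ) :=
  A.map (MvPolynomial.C : ℝ →+* MvPolynomial (Fin N × Fin N) ℝ)

theorem cst_map (A T : Matrix (Fin N) (Fin N) ℝ) : (cst A).map (ev T) = A := by
  ext i j; simp [cst, ev]

theorem exists_comp (p : MvPolynomial (Fin N × Fin N) ℝ)
    (M : Matrix (Fin N) (Fin N) (MvPolynomial (Fin N × Fin N) ℝ)) :
    ∃ q : MvPolynomial (Fin N × Fin N) ℝ, ∀ T, polyVal q T = polyVal p (M.map (ev T)) := by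
  refine ⟨MvPolynomial.bind₁ (fun ij => M ij.1 ij.2) p, fun T => ?_⟩
  exact MvPolynomial.eval₂Hom_bind₁ (RingHom.id ℝ)
    (fun ij : Fin N × Fin N => T ij.1 ij.2) (fun ij : Fin N × Fin N => M ij.1 ij.2) p

theorem exists_left (p : MvPolynomial (Fin N × Fin N) ℝ) (A : Matrix (Fin N) (Fin N) ℝ) :
    ∃ q : MvPolynomial (Fin N × Fin N) ℝ, ∀ T, polyVal q T = polyVal p (A * T) := by
  obtain ⟨q, hq⟩ := exists_comp p (cst A * gen N)
  exact ⟨q, fun T => by rw [hq, Matrix.map_mul, cst_map, gen_map]⟩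

theorem exists_right (p : MvPolynomial (Fin N × Fin N) ℝ) (A : Matrix (Fin N) (Fin N) ℝ) :
    ∃ q : MvPolynomial (Fin N × Fin N) ℝ, ∀ T, polyVal q T = polyVal p (T * A) := by
  obtain ⟨q, hq⟩ := exists_comp p (gen N * cst A)
  exact ⟨q, fun T => by rw [hq, Matrix.map_mul, cst_map, gen_map]⟩

end BrkAux

open BrkAux

variable {N : ℕ} {𝔤 : LieSubalgebra ℝ (Matrix (Fin N) (Fin N) ℝ)}

theorem InZcl.mul {S T : Matrix (Fin N) (Fin N) ℝ} (hS : InZcl 𝔤 S) (hT : InZcl 𝔤 T) :
    InZcl 𝔤 (S * T) := by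
  intro p hp
  have h1 : ∀ l : List (Matrix (Fin N) (Fin N) ℝ), (∀ X ∈ l, X ∈ 𝔤) →
      polyVal p ((l.map exp).prod * T) = 0 := by
    intro l hl
    obtain ⟨q, hq⟩ := exists_left p (l.map exp).prod
    rw [← hq]
    refine hT q fun l' hl' => ?_
    rw [hq, ← List.prod_append, ← List.map_append]
    refine hp _ fun X hX => ?_
    rcases List.mem_append.1 hX with h | h
    · exact hl X h
    · exact hl' X h
  obtain ⟨q, hq⟩ := exists_right p T
  rw [← hq]
  refine hS q fun l hl => ?_
  rw [hq]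
  exact h1 l hl

namespace BrkAux

section Norms

attribute [local instance] Matrix.linftyOpNormedRing Matrix.linftyOpNormedAlgebra

set_option backward.isDefEq.respectTransparency false in
theorem mexp_conj_mem {V : Submodule ℝ (Matrix (Fin N) (Fin N) ℝ)}
    {X : Matrix (Fin N) (Fin N) ℝ}
    (hX : ∀ Y ∈ V, X * Y - Y * X ∈ V) {Y : Matrix (Fin N) (Fin N) ℝ} (hY : Y ∈ V) :
    exp X * Y * exp (-X) ∈ V :=
  exp_conj_mem V.closed_of_finiteDimensional hX hY

set_option backward.isDefEq.respectTransparency false in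
theorem mbracket_of_conj {V : Submodule ℝ (Matrix (Fin N) (Fin N) ℝ)}
    {X Y : Matrix (Fin N) (Fin N) ℝ}
    (h : ∀ t : ℝ, exp (t • X) * Y * exp (t • (-X)) ∈ V) : X * Y - Y * X ∈ V :=
  bracket_of_conj V.closed_of_finiteDimensional h

end Norms

theorem exp_mul_exp_neg (X : Matrix (Fin N) (Fin N) ℝ) : exp X * exp (-X) = 1 := by
  rw [← Matrix.exp_add_of_commute _ _ (Commute.neg_right (Commute.refl X)), add_neg_cancel,
    exp_zero]

theorem adj_exp (X : Matrix (Fin N) (Fin N) ℝ) :
    adjugate (exp X) = (exp X).det • exp (-X) := by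
  calc adjugate (exp X) = adjugate (exp X) * (exp X * exp (-X)) := by
        rw [exp_mul_exp_neg, mul_one]
    _ = (adjugate (exp X) * exp X) * exp (-X) := by rw [mul_assoc]
    _ = (exp X).det • exp (-X) := by rw [adjugate_mul]; simp

theorem prod_conj_mem (l : List (Matrix (Fin N) (Fin N) ℝ)) (hl : ∀ X ∈ l, X ∈ 𝔤)
    {Y : Matrix (Fin N) (Fin N) ℝ} (hY : Y ∈ 𝔤) :
    (l.map exp).prod * Y * adjugate (l.map exp).prod ∈ 𝔤.toSubmodule := by
  induction l with
  | nil => simpa using hY
  | cons X l ih =>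
    have h1 := ih (fun Z hZ => hl Z (List.mem_cons_of_mem _ hZ))
    have hX : X ∈ 𝔤 := hl X List.mem_cons_self
    have hXV : ∀ Z ∈ 𝔤.toSubmodule, X * Z - Z * X ∈ 𝔤.toSubmodule := by
      intro Z hZ
      exact 𝔤.lie_mem hX hZ
    have h2 := mexp_conj_mem hXV h1
    have h3 := 𝔤.toSubmodule.smul_mem (exp X).det h2
    have h4 : ((X :: l).map exp).prod * Y * adjugate ((X :: l).map exp).prod
        = (exp X).det • (exp X * ((l.map exp).prod * Y * adjugate (l.map exp).prod)
          * exp (-X)) := by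
      rw [List.map_cons, List.prod_cons, adjugate_mul_distrib, adj_exp]
      simp [mul_assoc]
    rw [h4]; exact h3

end BrkAux

theorem bracket_mem {X Y : Matrix (Fin N) (Fin N) ℝ} (hX : ∀ t : ℝ, InZcl 𝔤 (exp (t • X)))
    (hY : Y ∈ 𝔤) : X * Y - Y * X ∈ 𝔤 := by
  have key : ∀ T : Matrix (Fin N) (Fin N) ℝ, InZcl 𝔤 T → T * Y * adjugate T ∈ 𝔤.toSubmodule := by
    intro T hT
    by_contra hn
    obtain ⟨f, hf, hf0⟩ := Submodule.exists_dual_map_eq_bot_of_notMem hn inferInstance
    have hf1 : ∀ Z ∈ 𝔤.toSubmodule, f Z = 0 := by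
      intro Z hZ
      have : f Z ∈ 𝔤.toSubmodule.map f := Submodule.mem_map_of_mem hZ
      rw [hf0] at this
      simpa using this
    have hfs : ∀ Z : Matrix (Fin N) (Fin N) ℝ,
        f Z = ∑ i, ∑ j, f (Matrix.single i j 1) * Z i j := by
      intro Z
      conv_lhs => rw [Matrix.matrix_eq_sum_single Z]
      simp only [map_sum]
      refine Finset.sum_congr rfl fun i _ => Finset.sum_congr rfl fun j _ => ?_
      have : Matrix.single i j (Z i j) = Z i j • Matrix.single i j (1 : ℝ) := by simp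
      rw [this, map_smul, smul_eq_mul, mul_comm]
    let q : MvPolynomial (Fin N × Fin N) ℝ := ∑ i, ∑ j,
      MvPolynomial.C (f (Matrix.single i j 1)) * (gen N * cst Y * adjugate (gen N)) i j
    have hq : ∀ S : Matrix (Fin N) (Fin N) ℝ, polyVal q S = f (S * Y * adjugate S) := by
      intro S
      have hadj : (adjugate (gen N)).map (ev S) = adjugate S := by
        have := RingHom.map_adjugate (ev S) (gen N)
        rw [RingHom.mapMatrix_apply, RingHom.mapMatrix_apply, gen_map] at this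
        exact this
      have hm : (gen N * cst Y * adjugate (gen N)).map (ev S) = S * Y * adjugate S := by
        rw [Matrix.map_mul, Matrix.map_mul, gen_map, cst_map, hadj]
      rw [hfs, ← hm]
      show ev S q = _
      simp only [q, map_sum, map_mul]
      refine Finset.sum_congr rfl fun i _ => Finset.sum_congr rfl fun j _ => ?_
      congr 1
      simp [ev]
    apply hf
    rw [← hq]
    refine hT q fun l hl => ?_
    rw [hq]
    exact hf1 _ (prod_conj_mem l hl hY)
  have key2 : X * Y - Y * X ∈ 𝔤.toSubmodule := by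
    refine mbracket_of_conj fun t => ?_
    have h1 := key _ (hX t)
    rw [adj_exp] at h1
    have hd : (exp (t • X)).det ≠ 0 := by
      have := (Matrix.isUnit_exp (t • X))
      rw [Matrix.isUnit_iff_isUnit_det] at this
      exact this.ne_zero
    have h2 := 𝔤.toSubmodule.smul_mem ((exp (t • X)).det)⁻¹ h1
    rw [Matrix.mul_smul, smul_smul, inv_mul_cancel₀ hd, one_smul] at h2
    rwa [smul_neg]
  exact key2

end Pool.Agent.Lib.MP_d9b062_al.Stmt
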